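import Pool.Agent.H.MP_4c7af0_al.helper93.L

/-! MP_4c7af0_al, groups of rank one over global function fields (helper93), module F: the theorem at a moved cusp -/

set_option linter.unusedSectionVars false

namespace BoomROF

open BoomRO

variable {ι : Type*} [Fintype ι] [DecidableEq ι] {K : Type*} [Field K] {A : Subring K}

/-- common denominators -/
theorem den_fin (hA : BoomFF.GRing A) {κ : Type*} [Finite κ] (x : κ → K) :
    ∃ N ∈ A, N ≠ 0 ∧ ∀ k, N * x k ∈ A := by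
  classical
  have := Fintype.ofFinite κ
  choose n hn hn0 h using fun k => hA.den (x k)
  refine ⟨∏ k, n k, A.prod_mem fun k _ => hn k, Finset.prod_ne_zero_iff.2 fun k _ => hn0 k, fun k => ?_⟩
  rw [← Finset.mul_prod_erase Finset.univ n (Finset.mem_univ k), mul_comm (n k), mul_assoc]
  exact A.mul_mem (A.prod_mem fun k _ => hn k) (h k)

/-- torus elements are integral up to powers, in every conjugate -/
theorem tor_conj (hA : BoomFF.GRing A) (w : ι → ℤ) (g : (Matrix ι ι K)ˣ) (a : Kˣ) (ha : (a : K) ∈ A)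
    (ha' : (a : K)⁻¹ ∈ A) : ∃ r : ℕ, 0 < r ∧ g * tor w (a ^ r) * g⁻¹ ∈ GLA ι A := by
  classical
  obtain ⟨N, hN, hN0, hN'⟩ := den_fin hA fun p : ι × ι × ι => g.val p.1 p.2.1 * (g⁻¹).val p.2.1 p.2.2
  obtain ⟨r, hr, hr'⟩ := hA.unit_pow a.ne_zero ha ha' hN hN0
  have hinv : (((a : K) ^ r)⁻¹ - 1) / N ∈ A := by
    have h1 : (((a : K) ^ r)⁻¹ - 1) / N = -((a : K)⁻¹ ^ r) * (((a : K) ^ r - 1) / N) := by
      have := pow_ne_zero r a.ne_zero
      rw [inv_pow]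
      field_simp
      ring
    rw [h1]
    exact A.mul_mem (A.neg_mem (A.pow_mem ha' r)) hr'
  have hpow : ∀ c : K, c ∈ A → (c - 1) / N ∈ A → ∀ m : ℕ, (c ^ m - 1) / N ∈ A := by
    intro c hc hc' m
    induction m with
    | zero =>
      rw [pow_zero, sub_self, zero_div]
      exact A.zero_mem
    | succ m ih =>
      have h1 : (c ^ (m + 1) - 1) / N = c * ((c ^ m - 1) / N) + (c - 1) / N := by
        rw [pow_succ]
        ring
      rw [h1]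
      exact A.add_mem (A.mul_mem hc ih) hc'
  have hz : ∀ z : ℤ, (((a : K) ^ r) ^ z - 1) / N ∈ A := by
    intro z
    obtain ⟨m, rfl | rfl⟩ := z.eq_nat_or_neg
    · rw [zpow_natCast]
      exact hpow _ (A.pow_mem ha r) hr' m
    · rw [zpow_neg, zpow_natCast, ← inv_pow]
      refine hpow _ ?_ hinv m
      rw [← inv_pow]
      exact A.pow_mem ha' r
  have key : ∀ z : ℤ, ∀ i j, (g.val * dg (fun i => z * w i) ((a : K) ^ r) * (g⁻¹).val) i j ∈ A := by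
    intro z i j
    have h1 : (g.val * dg (fun i => z * w i) ((a : K) ^ r) * (g⁻¹).val) i j =
        (1 : Matrix ι ι K) i j + ∑ l, ((((a : K) ^ r) ^ (z * w l) - 1) / N) *
          (N * (g.val i l * (g⁻¹).val l j)) := by
      have h2 : (1 : Matrix ι ι K) i j = ∑ l, g.val i l * (g⁻¹).val l j := by
        rw [← Matrix.mul_apply, Units.mul_inv]
      rw [h2, ← Finset.sum_add_distrib, Matrix.mul_apply]
      refine Finset.sum_congr rfl fun l _ => ?_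
      rw [mul_dg_apply]
      field_simp
      ring
    rw [h1]
    refine A.add_mem ?_ (A.sum_mem fun l _ => A.mul_mem (hz _) (hN' (i, l, j)))
    rw [Matrix.one_apply]
    split_ifs
    · exact A.one_mem
    · exact A.zero_mem
  refine ⟨r, hr, ?_, ?_⟩
  · intro i j
    have h1 := key 1 i j
    have h2 : (g * tor w (a ^ r) * g⁻¹).val = g.val * dg (fun i => 1 * w i) ((a : K) ^ r) * (g⁻¹).val := by
      rw [Units.val_mul, Units.val_mul, tor_val, Units.val_pow_eq_pow_val]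
      simp only [one_mul]
    rw [h2]
    exact h1
  · intro i j
    have h1 := key (-1) i j
    have h2 : ((g * tor w (a ^ r) * g⁻¹)⁻¹).val =
        g.val * dg (fun i => -1 * w i) ((a : K) ^ r) * (g⁻¹).val := by
      have h3 : (g * tor w (a ^ r) * g⁻¹)⁻¹ = g * (tor w (a ^ r))⁻¹ * g⁻¹ := by group
      rw [h3, Units.val_mul, Units.val_mul, tor_inv_val, Units.val_pow_eq_pow_val]
      congr 2
      unfold dg
      congr 1
      funext l
      change (((a : K) ^ r)⁻¹) ^ w l = ((a : K) ^ r) ^ (-1 * w l)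
      rw [inv_zpow, neg_one_mul, zpow_neg]
    rw [h2]
    exact h1

/-- powers of all conjugates of torus elements are in `Γ` -/
theorem tor_Γ (hA : BoomFF.GRing A) {w : ι → ℤ} {G Γ : Subgroup (Matrix ι ι K)ˣ}
    (hT : ∀ a : Kˣ, tor w a ∈ G) (h2 : Γ.relIndex (G ⊓ GLA ι A) ≠ 0) {x : (Matrix ι ι K)ˣ} (hx : x ∈ G)
    {c : Kˣ} (hc : (c : K) ∈ A) (hc' : (c : K)⁻¹ ∈ A) :
    ∃ r : ℕ, 0 < r ∧ x * tor w (c ^ r) * x⁻¹ ∈ Γ := by
  obtain ⟨r, hr, hr'⟩ := tor_conj hA w x c hc hc'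
  have h3 : x * tor w (c ^ r) * x⁻¹ ∈ G ⊓ GLA ι A :=
    ⟨G.mul_mem (G.mul_mem hx (hT _)) (G.inv_mem hx), hr'⟩
  obtain ⟨s, hs, -, hs'⟩ := Subgroup.exists_pow_mem_of_relIndex_ne_zero h2 h3
  refine ⟨r * s, Nat.mul_pos hr hs, ?_⟩
  rw [pow_mul, ← tor_pow (c ^ r) s]
  have h4 := hs'.1
  rwa [conj_pow] at h4

/-- **the theorem at a moved cusp** -/
theorem cusp_thm {t : Kˣ} (hA : CRing A t) {w : ι → ℤ} {G Γ D : Subgroup (Matrix ι ι K)ˣ}
    (hΓG : Γ ≤ G) (hT : ∀ a : Kˣ, tor w a ∈ G) {n0 : (Matrix ι ι K)ˣ}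
    (hn0 : ∀ i j, w i ≠ - w j → n0.val i j = 0)
    (hB : ∀ g ∈ G, g ∈ P w ∨ ∃ a b, a ∈ G ∧ b ∈ G ∧ a ∈ P w ∧ b ∈ P w ∧ g = a * n0 * b)
    (h1 : (G ⊓ GLA ι A).relIndex Γ ≠ 0) (h2 : Γ.relIndex (G ⊓ GLA ι A) ≠ 0)
    (hDΓ : D ≤ Γ) (hR : Rec Γ D) {g δ : (Matrix ι ι K)ˣ} (hg : g ∈ G) (hδ : δ ∈ D)
    (hgδ : g⁻¹ * δ * g ∉ P w) :
    FM (D ⊓ cj g (E w 0)) ((Γ ⊓ cj g (E w 0) : Subgroup (Matrix ι ι K)ˣ) : Set (Matrix ι ι K)ˣ) ∧
    (∀ c : Kˣ, (c : K) ∈ A → (c : K)⁻¹ ∈ A → ∃ s : ℕ, 0 < s ∧ g * tor w (c ^ s) * g⁻¹ ∈ D) := by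
  classical
  obtain ⟨a, b, ha, hb, haP, hbP, hab⟩ := (hB _ (G.mul_mem (G.mul_mem (G.inv_mem hg) (hΓG (hDΓ hδ)))
    hg)).resolve_left hgδ
  have hmem : ∀ (x : (Matrix ι ι K)ˣ) (B : Subgroup (Matrix ι ι K)ˣ) (y : (Matrix ι ι K)ˣ),
      y ∈ cj x⁻¹ B ↔ x * y * x⁻¹ ∈ B := by
    intro x B y
    rw [mem_cj, inv_inv]
  -- elements of `D` with diagonal block part a power of a unit
  have hf : ∀ c : Kˣ, (c : K) ∈ A → (c : K)⁻¹ ∈ A → ∃ l : ℕ, 0 < l ∧ ∃ f ∈ cj g⁻¹ D, Bl w f (c ^ l) := by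
    intro c hc hc'
    obtain ⟨r, hr, hrΓ⟩ := tor_Γ hA.gr hT h2 (G.mul_mem hg ha) hc hc'
    obtain ⟨l, hl, f, hf, hfc⟩ := get_f (w := w) (Γ := cj (g * a)⁻¹ Γ) (D := cj (g * a)⁻¹ D) (hR.conj _)
      (n0 := n0) (b := b * a) hn0 ((P w).mul_mem hbP haP) (by
        rw [hmem]
        have h3 : g * a * (n0 * (b * a)) * (g * a)⁻¹ = g * (a * n0 * b) * g⁻¹ := by group
        rw [h3, ← hab]
        have h4 : g * (g⁻¹ * δ * g) * g⁻¹ = δ := by group
        rw [h4]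
        exact hδ) hr (by
        rw [hmem]
        exact hrΓ)
    refine ⟨l, hl, a * f * a⁻¹, ?_, hfc.conj haP⟩
    rw [hmem] at hf ⊢
    have h3 : g * (a * f * a⁻¹) * g⁻¹ = g * a * f * (g * a)⁻¹ := by group
    rw [h3]
    exact hf
  obtain ⟨l, hl, f, hfD, hfc⟩ := hf t hA.mem hA.inv_mem
  have hΓ0 : (Γ ⊓ GLA ι A).relIndex Γ ≠ 0 := by
    have h3 : Γ ⊓ GLA ι A = (G ⊓ GLA ι A) ⊓ Γ := by
      ext x
      exact ⟨fun h => ⟨⟨hΓG h.1, h.2⟩, h.1⟩, fun h => ⟨h.2, h.1.2⟩⟩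
    rw [h3, Subgroup.inf_relIndex_right]
    exact h1
  obtain ⟨N, hN, hN0, hN'⟩ := den_fin hA.gr fun p : ι × ι × ι × ι =>
    (g⁻¹).val p.1 p.2.1 * g.val p.2.2.1 p.2.2.2
  have hloc : FM (cj g⁻¹ D ⊓ E w 0)
      ((cj g⁻¹ Γ ⊓ E w 0 : Subgroup (Matrix ι ι K)ˣ) : Set (Matrix ι ι K)ˣ) := by
    refine local_ff hA (w := w) (G := G) (Γ := cj g⁻¹ Γ) (Γ0 := cj g⁻¹ (Γ ⊓ GLA ι A)) (D := cj g⁻¹ D)
      (fun x hx => ?_) (fun x hx => ?_) hT (hR.conj _) (fun x hx => ?_) ?_ (fun l hl u hu => ?_) hN0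
      (fun x hx k hxE i j => ?_) hfD hl hfc
    · rw [hmem] at hx ⊢
      exact hDΓ hx
    · rw [hmem] at hx
      have h3 : x = g⁻¹ * (g * x * g⁻¹) * g := by group
      rw [h3]
      exact G.mul_mem (G.mul_mem (G.inv_mem hg) (hΓG hx)) hg
    · rw [hmem] at hx ⊢
      exact hx.1
    · unfold cj
      rw [Subgroup.relIndex_map_map_of_injective _ _ (MulAut.conj g⁻¹).injective]
      exact hΓ0
    · have hcl : ((t ^ l : Kˣ) : K) ∈ A := by
        rw [Units.val_pow_eq_pow_val]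
        exact A.pow_mem hA.mem l
      have hcl' : ((t ^ l : Kˣ) : K)⁻¹ ∈ A := by
        rw [Units.val_pow_eq_pow_val, ← inv_pow]
        exact A.pow_mem hA.inv_mem l
      obtain ⟨r, hr, hrΓ⟩ := tor_Γ hA.gr hT h2 (G.mul_mem hg hu) hcl hcl'
      refine ⟨r, hr, ?_⟩
      rw [hmem]
      have h3 : g * (u * tor w ((t ^ l) ^ r) * u⁻¹) * g⁻¹ = g * u * tor w ((t ^ l) ^ r) * (g * u)⁻¹ := by
        group
      rw [h3]
      exact hrΓ
    · rw [hmem] at hx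
      have h4 : ∀ i j, (g * x * g⁻¹).val i j ∈ A := hx.2.1
      have h5 : x.val i j = ∑ l, ∑ p, ((g⁻¹).val i p * (g * x * g⁻¹).val p l) * g.val l j := by
        have h6 : x = g⁻¹ * (g * x * g⁻¹) * g := by group
        conv_lhs => rw [h6]
        rw [Units.val_mul, Units.val_mul, Matrix.mul_apply]
        refine Finset.sum_congr rfl fun l _ => ?_
        rw [Matrix.mul_apply, Finset.sum_mul]
      have h7 : N * x.val i j ∈ A := by
        rw [h5, Finset.mul_sum]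
        refine A.sum_mem fun l _ => ?_
        rw [Finset.mul_sum]
        refine A.sum_mem fun p _ => ?_
        have h8 : N * ((g⁻¹).val i p * (g * x * g⁻¹).val p l * g.val l j) =
            (g * x * g⁻¹).val p l * (N * ((g⁻¹).val i p * g.val l j)) := by ring
        rw [h8]
        exact A.mul_mem (h4 p l) (hN' (i, p, l, j))
      unfold gr
      rw [comp_apply]
      split_ifs with h10
      · have hij : i ≠ j := by
          rintro rfl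
          omega
        rw [Matrix.sub_apply, Matrix.one_apply_ne hij, sub_zero]
        exact h7
      · rw [mul_zero]
        exact A.zero_mem
  refine ⟨?_, fun c hc hc' => ?_⟩
  · obtain ⟨Φ, hΦ, hΦ'⟩ := hloc
    refine ⟨(fun x => g * x * g⁻¹) '' Φ, hΦ.image _, ?_⟩
    rintro x ⟨hx, hx'⟩
    have hx2 := mem_cj.1 hx'
    obtain ⟨d, hd, φ, hφ, he'⟩ := hΦ' (g⁻¹ * x * g) ⟨(hmem _ _ _).2 (by
      have h3 : g * (g⁻¹ * x * g) * g⁻¹ = x := by group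
      rwa [h3]), hx2⟩
    refine ⟨g * d * g⁻¹, ⟨(hmem _ _ _).1 hd.1, mem_cj.2 ?_⟩, _, ⟨φ, hφ, rfl⟩, ?_⟩
    · have h3 : g⁻¹ * (g * d * g⁻¹) * g = d := by group
      rw [h3]
      exact hd.2
    · have h3 : x = g * (g⁻¹ * x * g) * g⁻¹ := by group
      rw [h3, he']
      group
  · obtain ⟨l', hl', f', hfD', hfc'⟩ := hf c hc hc'
    obtain ⟨r, hr, hrΓ⟩ := tor_Γ hA.gr hT h2 hg hc hc'
    obtain ⟨s, hs, hsD⟩ := tor_lem (w := w) (Γ := cj g⁻¹ Γ) (D := cj g⁻¹ D) (fun x hx => by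
      rw [hmem] at hx ⊢
      exact hDΓ hx) hloc hfD' hl' hfc' hr ((hmem _ _ _).2 hrΓ)
    exact ⟨s, hs, (hmem _ _ _).1 hsD⟩

end BoomROF
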