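import Pool.Agent.H.MP_4c7af0_al.helper93.F

/-! MP_4c7af0_al, groups of rank one over global function fields (helper93), module G: the dichotomy -/

set_option linter.unusedSectionVars false

namespace BoomROF

open BoomRO

variable {ι : Type*} [Fintype ι] [DecidableEq ι] {K : Type*} [Field K] {A : Subring K} {w : ι → ℤ}

theorem weyl_tor {n0 : (Matrix ι ι K)ˣ} (hn0 : ∀ i j, w i ≠ - w j → n0.val i j = 0) (a : Kˣ) :
    n0⁻¹ * tor w a * n0 = tor w a⁻¹ := by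
  have hweyl : tor w a * n0 = n0 * tor w a⁻¹ := by
    ext1
    rw [Units.val_mul, Units.val_mul, tor_val, tor_val, weyl_dg _ hn0, Units.val_inv_eq_inv_val]
  rw [mul_assoc, hweyl, inv_mul_cancel_left]

/-- the Weyl element normalises the centraliser of the torus -/
theorem levi_weyl {μ : Kˣ} (hμ : Inf μ) {n0 : (Matrix ι ι K)ˣ} (hn0 : ∀ i j, w i ≠ - w j → n0.val i j = 0)
    {p : (Matrix ι ι K)ˣ} (hp : p⁻¹ * tor w μ * p = tor w μ) : n0⁻¹ * p * n0 ∈ P w := by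
  have hn0' := weyl_inv hμ hn0
  have hblock : ∀ q : (Matrix ι ι K)ˣ, q⁻¹ * tor w μ * q = tor w μ → ∀ i j, w i ≠ w j → q.val i j = 0 := by
    intro q hq i j hij
    have h1 : tor w μ * q = q * tor w μ := by
      rw [mul_assoc, inv_mul_eq_iff_eq_mul] at hq
      exact hq
    have h2 : dg w (μ : K) * q.val = q.val * dg w (μ : K) := by
      have h3 := congrArg Units.val h1
      rwa [Units.val_mul, Units.val_mul, tor_val] at h3
    have h3 := congrFun (congrFun h2 i) j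
    rw [dg_mul_apply, mul_dg_apply, mul_comm] at h3
    by_contra hne
    have h4 := mul_left_cancel₀ hne h3
    have h5 : (μ : K) ^ (w i - w j) = 1 := by
      rw [zpow_sub₀ μ.ne_zero, h4, div_self (zpow_ne_zero _ μ.ne_zero)]
    exact hij (by have := hμ.zpow h5; omega)
  have key : ∀ q : (Matrix ι ι K)ˣ, (∀ i j, w i ≠ w j → q.val i j = 0) →
      (n0⁻¹ * q * n0).val ∈ Fil w 0 := by
    intro q hq i j hij
    rw [Units.val_mul, Units.val_mul, Matrix.mul_apply]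
    refine Finset.sum_eq_zero fun l _ => ?_
    by_cases hl : w l = - w j
    · rw [Matrix.mul_apply, Finset.sum_mul]
      refine Finset.sum_eq_zero fun r _ => ?_
      by_cases hr : w i = - w r
      · rw [hq r l (by omega), mul_zero, zero_mul]
      · rw [hn0' i r hr, zero_mul, zero_mul]
    · rw [hn0 l j hl, mul_zero]
  refine ⟨key p (hblock p hp), ?_⟩
  have h1 : (n0⁻¹ * p * n0)⁻¹ = n0⁻¹ * p⁻¹ * n0 := by group
  rw [h1]
  refine key _ (hblock p⁻¹ ?_)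
  rw [inv_inv]
  calc p * tor w μ * p⁻¹ = p * (p⁻¹ * tor w μ * p) * p⁻¹ := by rw [hp]
    _ = tor w μ := by group

/-- the cusps fixed by a torus element -/
theorem fix_tor {μ : Kˣ} (hμ : Inf μ) {n0 : (Matrix ι ι K)ˣ} (hn0 : ∀ i j, w i ≠ - w j → n0.val i j = 0)
    {p q : (Matrix ι ι K)ˣ} (hp : p ∈ P w) (hq : q ∈ P w)
    (h : (p * n0 * q)⁻¹ * tor w μ * (p * n0 * q) ∈ P w) : p⁻¹ * tor w μ * p = tor w μ := by
  set e : (Matrix ι ι K)ˣ := (tor w μ)⁻¹ * (p⁻¹ * tor w μ * p⁻¹⁻¹) with he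
  have heE : e ∈ E w 0 := by
    refine Bl.mem_E ?_
    have h1 := (Bl.tor (w := w) μ).inv.mul ((Bl.tor (w := w) μ).conj ((P w).inv_mem hp))
    rwa [inv_mul_cancel] at h1
  have h1 : n0⁻¹ * e * n0 ∈ P w := by
    have h2 := (P w).mul_mem ((P w).mul_mem hq h) ((P w).inv_mem hq)
    have h3 : n0⁻¹ * e * n0 = (n0⁻¹ * tor w μ * n0)⁻¹ *
        (q * ((p * n0 * q)⁻¹ * tor w μ * (p * n0 * q)) * q⁻¹) := by
      rw [he]
      group
    rw [h3, weyl_tor hn0]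
    exact (P w).mul_mem ((P w).inv_mem (tor_mem_P _)) h2
  have h2 := opp hμ hn0 heE h1
  rw [he, inv_inv] at h2
  exact (inv_mul_eq_one.1 h2).symm

/-- **the dichotomy** -/
theorem dich {t : Kˣ} (hA : CRing A t) {G Γ D : Subgroup (Matrix ι ι K)ˣ}
    (hΓG : Γ ≤ G) (hT : ∀ a : Kˣ, tor w a ∈ G) {n0 : (Matrix ι ι K)ˣ}
    (hn0 : ∀ i j, w i ≠ - w j → n0.val i j = 0)
    (hB : ∀ g ∈ G, g ∈ P w ∨ ∃ a b, a ∈ G ∧ b ∈ G ∧ a ∈ P w ∧ b ∈ P w ∧ g = a * n0 * b)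
    (h1 : (G ⊓ GLA ι A).relIndex Γ ≠ 0) (h2 : Γ.relIndex (G ⊓ GLA ι A) ≠ 0)
    (hDΓ : D ≤ Γ) (hR : Rec Γ D) :
    (∀ g ∈ G, ∀ δ ∈ D, g⁻¹ * δ * g ∈ P w) ∨
      ∀ g ∈ G, (D ⊓ cj g (E w 0)).relIndex (Γ ⊓ cj g (E w 0)) ≠ 0 ∧
        ∀ c : Kˣ, (c : K) ∈ A → (c : K)⁻¹ ∈ A → ∃ s : ℕ, 0 < s ∧ g * tor w (c ^ s) * g⁻¹ ∈ D := by
  classical
  by_cases hcase : ∀ g ∈ G, ∀ δ ∈ D, g⁻¹ * δ * g ∈ P w
  · exact Or.inl hcase
  right
  push Not at hcase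
  obtain ⟨g1, hg1, δ1, hδ1, hgδ1⟩ := hcase
  intro g hg
  by_cases hB2 : ∃ δ ∈ D, g⁻¹ * δ * g ∉ P w
  · obtain ⟨δ, hδ, hgδ⟩ := hB2
    obtain ⟨h3, h4⟩ := cusp_thm hA hΓG hT hn0 hB h1 h2 hDΓ hR hg hδ hgδ
    exact ⟨h3.relIndex, h4⟩
  exfalso
  push Not at hB2
  obtain ⟨-, h4⟩ := cusp_thm hA hΓG hT hn0 hB h1 h2 hDΓ hR hg1 hδ1 hgδ1
  obtain ⟨s, hs, hsD⟩ := h4 t hA.mem hA.inv_mem
  obtain ⟨μ, hμ⟩ : ∃ μ, μ = t ^ s := ⟨_, rfl⟩
  have hμinf : Inf μ := hμ ▸ hA.inf.pow hs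
  rw [← hμ] at hsD
  have hxG : g1⁻¹ * g ∈ G := G.mul_mem (G.inv_mem hg1) hg
  rcases hB _ hxG with hx | ⟨p, q, hpG, hqG, hp, hq, hpq⟩
  · apply hgδ1
    have h5 : g1⁻¹ * δ1 * g1 = (g1⁻¹ * g) * (g⁻¹ * δ1 * g) * (g1⁻¹ * g)⁻¹ := by group
    rw [h5]
    exact (P w).mul_mem ((P w).mul_mem hx (hB2 _ hδ1)) ((P w).inv_mem hx)
  have hg' : g = g1 * (p * n0 * q) := by
    rw [← hpq]
    group
  -- `p` commutes with the torus element
  have hpμ : p⁻¹ * tor w μ * p = tor w μ := by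
    refine fix_tor hμinf hn0 hp hq ?_
    have h5 := hB2 _ hsD
    have h6 : g⁻¹ * (g1 * tor w μ * g1⁻¹) * g = (p * n0 * q)⁻¹ * tor w μ * (p * n0 * q) := by
      rw [hg']
      group
    rwa [h6] at h5
  -- the cusp `δ1 g1`
  obtain ⟨p1, q1, hp1G, hq1G, hp1, hq1, hpq1⟩ := (hB _ (G.mul_mem (G.mul_mem (G.inv_mem hg1)
    (hΓG (hDΓ hδ1))) hg1)).resolve_left hgδ1
  obtain ⟨v, hvG, hvE, hv⟩ := conj_tor hT (f := p1 * tor w μ * p1⁻¹)
    (G.mul_mem (G.mul_mem hp1G (hT μ)) (G.inv_mem hp1G)) ((Bl.tor μ).conj hp1) hμinf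
  have hm : (p1⁻¹ * v)⁻¹⁻¹ * tor w μ * (p1⁻¹ * v)⁻¹ = tor w μ := by
    have h5 : tor w μ = p1⁻¹ * v * (v⁻¹ * (p1 * tor w μ * p1⁻¹) * v) * (p1⁻¹ * v)⁻¹ := by group
    rw [hv] at h5
    rw [inv_inv]
    exact h5.symm
  have hv1 : v ≠ 1 := by
    intro hv1
    rw [hv1, mul_one, inv_inv] at hm
    have h5 : n0⁻¹ * p1 * n0 ∈ P w := levi_weyl hμinf hn0 hm
    have h6 : n0⁻¹ * p * n0 ∈ P w := levi_weyl hμinf hn0 hpμ
    have h7 := hB2 _ hδ1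
    have h8 : n0 = ((q1 * p)⁻¹ * (n0⁻¹ * p1 * n0)⁻¹ * (n0⁻¹ * p * n0) * q) *
        (g⁻¹ * δ1 * g) * q⁻¹ := by
      have h9 : g⁻¹ * δ1 * g = (p * n0 * q)⁻¹ * (p1 * n0 * q1) * (p * n0 * q) := by
        rw [← hpq1, hg']
        group
      rw [h9]
      group
    have h9 : n0 ∈ P w := by
      rw [h8]
      exact (P w).mul_mem ((P w).mul_mem ((P w).mul_mem ((P w).mul_mem ((P w).mul_mem
        ((P w).inv_mem ((P w).mul_mem hq1 hp)) ((P w).inv_mem h5)) h6) hq) h7) ((P w).inv_mem hq)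
    apply hgδ1
    rw [hpq1]
    exact (P w).mul_mem ((P w).mul_mem hp1 h9) hq1
  obtain ⟨r, hr, hrΓ⟩ := tor_Γ hA.gr hT h2 (G.mul_mem hg1 hvG) hA.mem hA.inv_mem
  obtain ⟨i, hi, hiD⟩ := hR _ hrΓ {g1 * tor w μ * g1⁻¹} (by
    intro x hx
    rw [Finset.mem_singleton.1 hx]
    exact hsD) 1
  have hiD' := hB2 _ (hiD _ (Finset.mem_singleton_self _))
  obtain ⟨c, hc⟩ : ∃ c : Kˣ, c = (t ^ r) ^ i := ⟨_, rfl⟩
  have hcinf : Inf c := by
    rw [hc, ← pow_mul]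
    exact hA.inf.pow (Nat.mul_pos hr hi)
  rw [conj_pow, tor_pow, ← hc] at hiD'
  set p' : (Matrix ι ι K)ˣ := v * tor w c * v⁻¹ * p with hp'
  have hp'P : p' ∈ P w := (P w).mul_mem ((P w).mul_mem ((P w).mul_mem (E_le_P 0 hvE) (tor_mem_P c))
    ((P w).inv_mem (E_le_P 0 hvE))) hp
  have hp'μ : p'⁻¹ * tor w μ * p' = tor w μ := by
    refine fix_tor hμinf hn0 hp'P hq ?_
    have h6 : g⁻¹ * ((g1 * v * tor w c * (g1 * v)⁻¹)⁻¹ * (g1 * tor w μ * g1⁻¹) *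
        (g1 * v * tor w c * (g1 * v)⁻¹)) * g = (p' * n0 * q)⁻¹ * tor w μ * (p' * n0 * q) := by
      rw [hg', hp']
      group
    rwa [h6] at hiD'
  -- `v c v⁻¹` commutes with the torus element
  have h5 : (v * tor w c * v⁻¹)⁻¹ * tor w μ * (v * tor w c * v⁻¹) = tor w μ := by
    have h6 : (v * tor w c * v⁻¹)⁻¹ * tor w μ * (v * tor w c * v⁻¹) =
        p * (p'⁻¹ * tor w μ * p') * p⁻¹ := by
      rw [hp']
      group
    rw [h6, hp'μ]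
    calc p * tor w μ * p⁻¹ = p * (p⁻¹ * tor w μ * p) * p⁻¹ := by rw [hpμ]
      _ = tor w μ := by group
  have hcomm : tor w c * tor w μ = tor w μ * tor w c := by
    rw [tor_mul, tor_mul, mul_comm]
  set e : (Matrix ι ι K)ˣ := v * ((tor w c⁻¹)⁻¹ * v⁻¹ * tor w c⁻¹) with he
  have heE : e ∈ E w 0 := (E w 0).mul_mem hvE (E_conj (tor_mem_P _) ((E w 0).inv_mem hvE))
  have hec : v * tor w c * v⁻¹ = e * tor w c := by
    rw [he, ← tor_inv]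
    group
  have h6 : e = 1 := by
    refine comm_tor heE hμinf ?_
    rw [hec] at h5
    have h7 : e⁻¹ * tor w μ * e = tor w c * tor w μ * (tor w c)⁻¹ := by
      have h8 : e⁻¹ * tor w μ * e = tor w c * ((e * tor w c)⁻¹ * tor w μ * (e * tor w c)) * (tor w c)⁻¹ := by
        group
      rw [h8, h5]
    rw [hcomm, mul_inv_cancel_right] at h7
    have h8 : (tor w μ)⁻¹ * e * tor w μ = (tor w μ)⁻¹ * e * (e⁻¹ * tor w μ * e) := by rw [h7]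
    rw [h8]
    group
  have h7 : v = 1 := by
    refine comm_tor hvE hcinf ?_
    rw [h6, one_mul] at hec
    calc (tor w c)⁻¹ * v * tor w c = (tor w c)⁻¹ * (v * tor w c * v⁻¹) * v := by group
      _ = v := by rw [hec]; group
  exact hv1 h7

end BoomROF
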