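import Pool.Agent.H.MP_4c7af0_al.helper93.W
import Pool.Agent.H.MP_4c7af0_al.FF.G1

/-! MP_4c7af0_al, groups of rank one over global function fields (helper93), module L: the local theorem -/

set_option linter.unusedSectionVars false

namespace BoomROF

open BoomRO

variable {ι : Type*} [Fintype ι] [DecidableEq ι] {K : Type*} [Field K] {A : Subring K}

/-- what is used of the ring `A` and of its unit `t` -/
structure CRing (A : Subring K) (t : Kˣ) : Prop where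
  mem : (t : K) ∈ A
  inv_mem : (t : K)⁻¹ ∈ A
  inf : Inf t
  gr : BoomFF.GRing A
  fg : ∀ m : ℕ, 0 < m → ∃ Ω : Finset K, (∀ ω ∈ Ω, ω ∈ A) ∧
    ∀ x ∈ A, x ∈ Submodule.span (Subring.closure ({(t : K) ^ m, ((t : K) ^ m)⁻¹} : Set K)) (Ω : Set K)

/-- an additive group stable under `σ` and `σ⁻¹` is stable under the ring generated by them -/
theorem stabM {M : Type*} [AddCommGroup M] [Module K M] (I : AddSubgroup M) {σ : K}
    (h1 : ∀ x ∈ I, σ • x ∈ I) (h2 : ∀ x ∈ I, σ⁻¹ • x ∈ I) {b : K}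
    (hb : b ∈ Subring.closure ({σ, σ⁻¹} : Set K)) : ∀ x ∈ I, b • x ∈ I := by
  induction hb using Subring.closure_induction with
  | mem b hb =>
    rcases hb with rfl | hb
    · exact h1
    · rw [Set.mem_singleton_iff] at hb
      rw [hb]
      exact h2
  | zero => intro x _; rw [zero_smul]; exact I.zero_mem
  | one => intro x hx; rw [one_smul]; exact hx
  | add a b _ _ ha hb => intro x hx; rw [add_smul]; exact I.add_mem (ha x hx) (hb x hx)
  | neg a _ ha => intro x hx; rw [neg_smul]; exact I.neg_mem (ha x hx)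
  | mul a b _ _ ha hb => intro x hx; rw [mul_smul]; exact ha _ (hb x hx)

/-- generators of the module of the integral matrices -/
def gens (ι : Type*) [Fintype ι] [DecidableEq ι] {K : Type*} [Field K] (N : K) (Ω : Finset K) :
    Set (Matrix ι ι K) :=
  Set.range fun p : (ι × ι) × Ω => Matrix.single p.1.1 p.1.2 (N⁻¹ * (p.2 : K))

/-- the integral matrices are contained in a finitely generated module -/
theorem mat_fg {C : Subring K} {N : K} (Ω : Finset K) (X : Matrix ι ι K) (hN : N ≠ 0)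
    (hX : ∀ i j, N * X i j ∈ Submodule.span C (Ω : Set K)) : X ∈ Submodule.span C (gens ι N Ω) := by
  classical
  have key : ∀ i j, ∀ y ∈ Submodule.span C (Ω : Set K), Matrix.single i j (N⁻¹ * y) ∈
      Submodule.span C (gens ι N Ω) := by
    intro i j y hy
    induction hy using Submodule.span_induction with
    | mem ω hω => exact Submodule.subset_span ⟨((i, j), ⟨ω, hω⟩), rfl⟩
    | zero =>
      rw [mul_zero, Matrix.single_zero]
      exact Submodule.zero_mem _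
    | add a b _ _ ha hb =>
      rw [mul_add, Matrix.single_add]
      exact Submodule.add_mem _ ha hb
    | smul c a _ ha =>
      have h1 : Matrix.single i j (N⁻¹ * (c • a)) = c • Matrix.single i j (N⁻¹ * a) := by
        rw [Matrix.smul_single]
        congr 1
        rw [Subring.smul_def, Subring.smul_def, smul_eq_mul, smul_eq_mul]
        ring
      rw [h1]
      exact Submodule.smul_mem _ _ ha
  have h2 : ∑ i, ∑ j, Matrix.single i j (X i j) ∈ Submodule.span C (gens ι N Ω) := by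
    refine Submodule.sum_mem _ fun i _ => Submodule.sum_mem _ fun j _ => ?_
    have h1 : X i j = N⁻¹ * (N * X i j) := by rw [inv_mul_cancel_left₀ hN]
    rw [h1]
    exact key i j _ (hX i j)
  rwa [← Matrix.matrix_eq_sum_single X] at h2

/-- the additive lemma -/
theorem fin_lem {t : Kˣ} (hA : CRing A t) {k m : ℕ} (hm : 0 < m) (hmk : k + 1 ∣ m)
    (V I : AddSubgroup (Matrix ι ι K)) (hV : ∀ c : K, c ≠ 0 → ∀ X ∈ V, c ^ (k + 1) • X ∈ V)
    (hI1 : ∀ X ∈ I, (t : K) ^ m • X ∈ I) (hI2 : ∀ X ∈ I, ((t : K) ^ m)⁻¹ • X ∈ I)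
    (h : ∀ X ∈ V, ∃ r ∈ Subring.closure ({(t : K) ^ m, ((t : K) ^ m)⁻¹} : Set K), r ≠ 0 ∧ r • X ∈ I)
    {N : K} (hN : N ≠ 0) :
    ∃ r ∈ A, r ≠ 0 ∧ ∀ X ∈ V, (∀ i j, N * X i j ∈ A) → (∀ i j, N * X i j / r ∈ A) → X ∈ I := by
  classical
  obtain ⟨Ω, -, hspan⟩ := hA.fg m hm
  obtain ⟨C, hC⟩ : ∃ C, C = Subring.closure ({(t : K) ^ m, ((t : K) ^ m)⁻¹} : Set K) := ⟨_, rfl⟩
  rw [← hC] at h hspan
  have ht0 : (t : K) ≠ 0 := t.ne_zero
  have hCA : C ≤ A := by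
    rw [hC, Subring.closure_le]
    rintro x (rfl | hx)
    · exact A.pow_mem hA.mem m
    · rw [Set.mem_singleton_iff] at hx
      rw [hx, ← inv_pow]
      exact A.pow_mem hA.inv_mem m
  have hCI : ∀ c ∈ C, ∀ X ∈ I, c • X ∈ I := by
    intro c hc
    rw [hC] at hc
    exact stabM I hI1 hI2 hc
  have hCV : ∀ c ∈ C, ∀ X ∈ V, c • X ∈ V := by
    intro c hc
    rw [hC] at hc
    obtain ⟨s, rfl⟩ := hmk
    refine stabM V (fun X hX => ?_) (fun X hX => ?_) hc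
    · rw [mul_comm, pow_mul]
      exact hV _ (pow_ne_zero _ ht0) X hX
    · rw [mul_comm, pow_mul, ← inv_pow]
      exact hV _ (inv_ne_zero (pow_ne_zero _ ht0)) X hX
  let J : Submodule C (Matrix ι ι K) :=
    { carrier := {X | X ∈ V ∧ ∀ i j, N * X i j ∈ A}
      add_mem' := fun {a b} ha hb => ⟨V.add_mem ha.1 hb.1, fun i j => by
        rw [Matrix.add_apply, mul_add]
        exact A.add_mem (ha.2 i j) (hb.2 i j)⟩
      zero_mem' := ⟨V.zero_mem, fun i j => by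
        rw [Matrix.zero_apply, mul_zero]
        exact A.zero_mem⟩
      smul_mem' := fun c a ha => ⟨by
        rw [Subring.smul_def]
        exact hCV _ c.2 _ ha.1, fun i j => by
        rw [Subring.smul_def, Matrix.smul_apply, smul_eq_mul, mul_left_comm]
        exact A.mul_mem (hCA c.2) (ha.2 i j)⟩ }
  have hnoe : IsNoetherianRing C := by
    rw [hC]
    exact is_noetherian_subring_closure _ (Set.toFinite _)
  have hfg : J.FG := by
    refine Submodule.FG.of_le (T := Submodule.span C (gens ι N Ω))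
      (Submodule.fg_span (Set.finite_range _)) ?_
    rintro X ⟨-, hX⟩
    exact mat_fg Ω X hN fun i j => hspan _ (hX i j)
  obtain ⟨F, hF⟩ := hfg
  have hFJ : ∀ X ∈ F, X ∈ J := fun X hX => by
    rw [← hF]
    exact Submodule.subset_span hX
  have hch : ∀ X : Matrix ι ι K, ∃ r : K, r ∈ C ∧ r ≠ 0 ∧ (X ∈ V → r • X ∈ I) := by
    intro X
    by_cases hX : X ∈ V
    · obtain ⟨r, hr, hr0, h1⟩ := h X hX
      exact ⟨r, hr, hr0, fun _ => h1⟩
    · exact ⟨1, C.one_mem, one_ne_zero, fun h => absurd h hX⟩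
  choose ρ hρ hρ0 hρI using hch
  have hr0 : ∏ X ∈ F, ρ X ≠ 0 := Finset.prod_ne_zero_iff.2 fun X _ => hρ0 X
  have hrC : ∏ X ∈ F, ρ X ∈ C := prod_mem fun X _ => hρ X
  obtain ⟨r, hr⟩ : ∃ r, r = ∏ X ∈ F, ρ X := ⟨_, rfl⟩
  have key : ∀ X ∈ J, r • X ∈ I := by
    intro X hX
    rw [← hF] at hX
    induction hX using Submodule.span_induction with
    | mem X hX =>
      have h2 : r • X = (∏ Y ∈ F.erase X, ρ Y) • (ρ X • X) := by
        rw [hr, ← Finset.mul_prod_erase F ρ (Finset.mem_coe.1 hX), mul_comm, mul_smul]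
      rw [h2]
      exact hCI _ (prod_mem fun Y _ => hρ Y) _ (hρI X (hFJ X hX).1)
    | zero => rw [smul_zero]; exact I.zero_mem
    | add x y _ _ h3 h4 => rw [smul_add]; exact I.add_mem h3 h4
    | smul c x _ h3 =>
      have e : r • (c • x) = (c : K) • (r • x) := by
        rw [Subring.smul_def, smul_comm]
      rw [e]
      exact hCI _ c.2 _ h3
  rw [← hr] at hr0 hrC
  refine ⟨r, hCA hrC, hr0, fun X hX hXA hXr => ?_⟩
  have hY : r⁻¹ • X ∈ J := by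
    refine ⟨?_, fun i j => ?_⟩
    · have h1 : ∀ n : ℕ, r ^ n • X ∈ V := fun n => hCV _ (C.pow_mem hrC n) _ hX
      have h2 := hV _ (inv_ne_zero hr0) _ (h1 k)
      rw [smul_smul] at h2
      have h3 : r⁻¹ ^ (k + 1) * r ^ k = r⁻¹ := by
        rw [pow_succ, mul_right_comm, ← mul_pow, inv_mul_cancel₀ hr0, one_pow, one_mul]
      rwa [h3] at h2
    · rw [Matrix.smul_apply, smul_eq_mul]
      have h1 : N * (r⁻¹ * X i j) = N * X i j / r := by
        field_simp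
      rw [h1]
      exact hXr i j
  have h1 := key _ hY
  rwa [smul_smul, mul_inv_cancel₀ hr0, one_smul] at h1

/-- finitely many cosets -/
theorem fin_cosets {t : Kˣ} (hA : CRing A t) {k m : ℕ} (hm : 0 < m) (hmk : k + 1 ∣ m)
    (V I J : AddSubgroup (Matrix ι ι K)) (hV : ∀ c : K, c ≠ 0 → ∀ X ∈ V, c ^ (k + 1) • X ∈ V)
    (hI1 : ∀ X ∈ I, (t : K) ^ m • X ∈ I) (hI2 : ∀ X ∈ I, ((t : K) ^ m)⁻¹ • X ∈ I)
    (h : ∀ X ∈ V, ∃ r ∈ Subring.closure ({(t : K) ^ m, ((t : K) ^ m)⁻¹} : Set K), r ≠ 0 ∧ r • X ∈ I)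
    {N : K} (hN : N ≠ 0) (hJV : ∀ X ∈ J, X ∈ V) (hJA : ∀ X ∈ J, ∀ i j, N * X i j ∈ A) :
    ∃ Φ : Set (Matrix ι ι K), Φ.Finite ∧ Φ ⊆ J ∧ ∀ X ∈ J, ∃ φ ∈ Φ, X - φ ∈ I := by
  classical
  obtain ⟨r, hr, hr0, hrI⟩ := fin_lem hA hm hmk V I hV hI1 hI2 h hN
  obtain ⟨T, -, hT⟩ := hA.gr.fin r hr hr0
  have hch : ∀ x : K, ∃ τ : K, x ∈ A → τ ∈ T ∧ (x - τ) / r ∈ A := by
    intro x
    by_cases hx : x ∈ A
    · obtain ⟨τ, h1, h2⟩ := hT x hx
      exact ⟨τ, fun _ => ⟨h1, h2⟩⟩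
    · exact ⟨0, fun h => absurd h hx⟩
  choose τ hτ using hch
  let g : J → (ι → ι → T) := fun X i j => ⟨τ (N * (X : Matrix ι ι K) i j), (hτ _ (hJA X.1 X.2 i j)).1⟩
  refine ⟨(fun X : J => (X : Matrix ι ι K)) '' (Set.range fun c : Set.range g => c.2.choose), ?_, ?_, ?_⟩
  · exact (Set.finite_range _).image _
  · rintro _ ⟨X, -, rfl⟩
    exact X.2
  · intro X hX
    have hc : g ⟨X, hX⟩ ∈ Set.range g := ⟨_, rfl⟩
    refine ⟨_, ⟨hc.choose, ⟨⟨_, hc⟩, rfl⟩, rfl⟩, ?_⟩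
    have h1 : g hc.choose = g ⟨X, hX⟩ := hc.choose_spec
    obtain ⟨Y, hY⟩ : ∃ Y, Y = hc.choose := ⟨_, rfl⟩
    rw [← hY] at h1 ⊢
    refine hrI _ (V.sub_mem (hJV _ hX) (hJV _ Y.2)) (fun i j => ?_) (fun i j => ?_)
    · rw [Matrix.sub_apply, mul_sub]
      exact A.sub_mem (hJA _ hX i j) (hJA _ Y.2 i j)
    · have h2 : τ (N * (Y : Matrix ι ι K) i j) = τ (N * X i j) :=
        congrArg Subtype.val (congrFun (congrFun h1 i) j)
      have h3 := (hτ _ (hJA _ hX i j)).2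
      have h4 := (hτ _ (hJA _ Y.2 i j)).2
      have h5 : N * (X - (Y : Matrix ι ι K)) i j / r =
          (N * X i j - τ (N * X i j)) / r - (N * (Y : Matrix ι ι K) i j - τ (N * (Y : Matrix ι ι K) i j)) / r := by
        rw [h2, Matrix.sub_apply]
        field_simp
        ring
      rw [h5]
      exact A.sub_mem h3 h4

/-- cosets from the index -/
theorem cosets {Γ : Type*} [Group Γ] {B C : Subgroup Γ} (h : B.relIndex C ≠ 0) :
    ∃ Φ : Set Γ, Φ.Finite ∧ Φ ⊆ C ∧ ∀ x ∈ C, ∃ a ∈ B, ∃ φ ∈ Φ, x = a * φ := by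
  have : (B.subgroupOf C).FiniteIndex := ⟨h⟩
  have : Finite (C ⧸ B.subgroupOf C) := inferInstance
  refine ⟨Set.range fun q : C ⧸ B.subgroupOf C => (((q.out : C) : Γ))⁻¹, Set.finite_range _, ?_, ?_⟩
  · rintro _ ⟨q, rfl⟩
    exact C.inv_mem (q.out : C).2
  · intro x hx
    have h1 : (QuotientGroup.mk (Quotient.out (QuotientGroup.mk (⟨x, hx⟩⁻¹ : C) : C ⧸ B.subgroupOf C)) :
        C ⧸ B.subgroupOf C) = QuotientGroup.mk (⟨x, hx⟩⁻¹ : C) := Quotient.out_eq _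
    rw [QuotientGroup.eq, Subgroup.mem_subgroupOf] at h1
    refine ⟨_, B.inv_mem h1, _, ⟨QuotientGroup.mk (⟨x, hx⟩⁻¹ : C), rfl⟩, ?_⟩
    push_cast
    group

/-- an element of `D` in the parabolic subgroup, with diagonal block part a power of the unit `c` -/
theorem get_f {w : ι → ℤ} {Γ D : Subgroup (Matrix ι ι K)ˣ} (hR : Rec Γ D) {n0 b : (Matrix ι ι K)ˣ}
    (hn0 : ∀ i j, w i ≠ - w j → n0.val i j = 0) (hb : b ∈ P w) (hδ : n0 * b ∈ D) {c : Kˣ} {r : ℕ}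
    (hr : 0 < r) (hc : tor w (c ^ r) ∈ Γ) : ∃ l : ℕ, 0 < l ∧ ∃ f ∈ D, Bl w f (c ^ l) := by
  obtain ⟨n, hn, hnD⟩ := hR (tor w (c ^ r))⁻¹ (Γ.inv_mem hc) {n0 * b} (by
    intro x hx
    rw [Finset.mem_singleton.1 hx]
    exact hδ) 1
  have hnD' := hnD _ (Finset.mem_singleton_self _)
  set a : Kˣ := (c ^ r) ^ n with ha
  have h1 : (((tor w (c ^ r))⁻¹ ^ n)⁻¹ * (n0 * b) * (tor w (c ^ r))⁻¹ ^ n) =
      tor w a * (n0 * b) * tor w a⁻¹ := by
    rw [inv_pow, tor_pow, inv_inv, tor_inv]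
  rw [h1] at hnD'
  have hweyl : tor w a * n0 = n0 * tor w a⁻¹ := by
    ext1
    rw [Units.val_mul, Units.val_mul, tor_val, tor_val, weyl_dg _ hn0, Units.val_inv_eq_inv_val]
  set f : (Matrix ι ι K)ˣ := (n0 * b)⁻¹ * (tor w a * (n0 * b) * tor w a⁻¹) with hf
  have hfD : f ∈ D := D.mul_mem (D.inv_mem hδ) hnD'
  have hf' : f = (b⁻¹ * tor w a⁻¹ * b⁻¹⁻¹) * tor w a⁻¹ := by
    rw [hf, ← mul_assoc (tor w a) n0 b, hweyl]
    group
  have h2 : Bl w f (a⁻¹ * a⁻¹) := by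
    rw [hf']
    exact ((Bl.tor _).conj ((P w).inv_mem hb)).mul (Bl.tor _)
  refine ⟨r * n * 2, Nat.mul_pos (Nat.mul_pos hr hn) Nat.two_pos, f⁻¹, D.inv_mem hfD, ?_⟩
  have h3 : c ^ (r * n * 2) = (a⁻¹ * a⁻¹)⁻¹ := by
    rw [ha, ← pow_mul, pow_mul, pow_two, mul_inv, inv_inv]
  rw [h3]
  exact h2.inv

/-- torus elements in `D` -/
theorem tor_lem {w : ι → ℤ} {Γ D : Subgroup (Matrix ι ι K)ˣ} (hDΓ : D ≤ Γ)
    (hFM : FM (D ⊓ E w 0) ((Γ ⊓ E w 0 : Subgroup (Matrix ι ι K)ˣ) : Set (Matrix ι ι K)ˣ))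
    {f : (Matrix ι ι K)ˣ} (hf : f ∈ D) {c : Kˣ} {l r : ℕ} (hl : 0 < l) (hfc : Bl w f (c ^ l))
    (hr : 0 < r) (hc : tor w (c ^ r) ∈ Γ) : ∃ s : ℕ, 0 < s ∧ tor w (c ^ s) ∈ D := by
  obtain ⟨Φ, hΦ, h⟩ := hFM
  obtain ⟨a, ha⟩ : ∃ a, a = c ^ (l * r) := ⟨_, rfl⟩
  have hf1 : Bl w (f ^ r) a := by
    rw [ha, pow_mul]
    exact hfc.pow r
  have hta : tor w a ∈ Γ := by
    rw [ha, mul_comm, pow_mul, ← tor_pow]
    exact Γ.pow_mem hc l
  have hx : ∀ j : ℕ, (f ^ r) ^ j * (tor w a ^ j)⁻¹ ∈ Γ ⊓ E w 0 := by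
    intro j
    refine ⟨Γ.mul_mem (Γ.pow_mem (Γ.pow_mem (hDΓ hf) r) j) (Γ.inv_mem (Γ.pow_mem hta j)), Bl.mem_E ?_⟩
    have h1 := (hf1.pow j).mul ((Bl.tor (w := w) a).pow j).inv
    rwa [mul_inv_cancel] at h1
  choose d hd φ hφ he using fun j => h _ (hx j)
  have : Finite Φ := hΦ
  obtain ⟨i, j, hij, hφij⟩ := Finite.exists_ne_map_eq_of_infinite (fun j : ℕ => (⟨φ j, hφ j⟩ : Φ))
  have hφij' : φ i = φ j := congrArg Subtype.val hφij
  wlog hlt : i < j generalizing i j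
  · exact this j i hij.symm hφij.symm hφij'.symm (lt_of_le_of_ne (not_lt.mp hlt) hij.symm)
  have h1 : ((f ^ r) ^ i * (tor w a ^ i)⁻¹) * ((f ^ r) ^ j * (tor w a ^ j)⁻¹)⁻¹ ∈ D := by
    rw [he i, he j, hφij']
    have h2 : d i * φ j * (d j * φ j)⁻¹ = d i * (d j)⁻¹ := by group
    rw [h2]
    exact D.mul_mem (hd i).1 (D.inv_mem (hd j).1)
  obtain ⟨s, hs, rfl⟩ : ∃ s, 0 < s ∧ j = i + s := ⟨j - i, by omega, by omega⟩
  have h2 : tor w a ^ s = ((f ^ r) ^ i)⁻¹ * (((f ^ r) ^ i * (tor w a ^ i)⁻¹) *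
      ((f ^ r) ^ (i + s) * (tor w a ^ (i + s))⁻¹)⁻¹) * (f ^ r) ^ (i + s) := by
    rw [pow_add (tor w a)]
    group
  have hfr : ∀ j, (f ^ r) ^ j ∈ D := fun j => D.pow_mem (D.pow_mem hf r) j
  refine ⟨l * r * s, Nat.mul_pos (Nat.mul_pos hl hr) hs, ?_⟩
  rw [pow_mul, ← ha, ← tor_pow, h2]
  exact D.mul_mem (D.mul_mem (D.inv_mem (hfr i)) h1) (hfr (i + s))

/-- **the local theorem** -/
theorem local_ff {t : Kˣ} (hA : CRing A t) {w : ι → ℤ} {G Γ Γ0 D : Subgroup (Matrix ι ι K)ˣ}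
    (hDΓ : D ≤ Γ) (hΓG : Γ ≤ G) (hT : ∀ a : Kˣ, tor w a ∈ G) (hR : Rec Γ D) (h0Γ : Γ0 ≤ Γ)
    (h0 : Γ0.relIndex Γ ≠ 0)
    (ht : ∀ l : ℕ, 0 < l → ∀ u ∈ G, ∃ r : ℕ, 0 < r ∧ u * tor w ((t ^ l) ^ r) * u⁻¹ ∈ Γ)
    {N : K} (hN : N ≠ 0) (hΓN : ∀ g ∈ Γ0, ∀ k, g ∈ E w k → ∀ i j, N * gr w k g i j ∈ A)
    {f : (Matrix ι ι K)ˣ} (hfD : f ∈ D) {l : ℕ} (hl : 0 < l) (hf : Bl w f (t ^ l)) :
    FM (D ⊓ E w 0) ((Γ ⊓ E w 0 : Subgroup (Matrix ι ι K)ˣ) : Set (Matrix ι ι K)ˣ) := by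
  classical
  obtain ⟨v, hvG, hvE, hv⟩ := conj_tor hT (hΓG (hDΓ hfD)) hf (hA.inf.pow hl)
  have hfv : f = v * tor w (t ^ l) * v⁻¹ := by
    rw [← hv]
    group
  obtain ⟨μ, hμ⟩ : ∃ μ : Kˣ, μ = t ^ l := ⟨_, rfl⟩
  rw [← hμ] at hfv hf
  have hμinf : Inf μ := hμ ▸ hA.inf.pow hl
  obtain ⟨m, hm⟩ := exists_E_bot (w := w) (ι := ι) (K := K)
  have hmain : ∀ j : ℕ, j ≤ m →
      FM (D ⊓ E w (m - j)) ((Γ ⊓ E w (m - j) : Subgroup (Matrix ι ι K)ˣ) : Set (Matrix ι ι K)ˣ) := by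
    intro j
    induction j with
    | zero =>
      intro _
      rw [Nat.sub_zero, hm]
      refine ⟨{1}, Set.finite_singleton _, ?_⟩
      rintro x ⟨-, hx⟩
      have hx' : x = 1 := hx
      exact ⟨1, Subgroup.one_mem _, 1, rfl, by rw [hx', mul_one]⟩
    | succ j ih =>
      intro hj
      set k : ℕ := m - (j + 1) with hk
      have hk' : m - j = k + 1 := by omega
      have ih' := ih (by omega)
      rw [hk'] at ih'
      refine fm_step ?_ hDΓ ih'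
      have hkz : ((k : ℤ) + 1) = ((k + 1 : ℕ) : ℤ) := by push_cast; ring
      set z : K := (t : K) ^ (l * (k + 1)) with hz
      have hμz : (μ : K) ^ ((k : ℤ) + 1) = z := by
        rw [hkz, zpow_natCast, hμ, Units.val_pow_eq_pow_val, ← pow_mul]
      have hz0 : z ≠ 0 := pow_ne_zero _ t.ne_zero
      -- stability
      have hI2 : ∀ X ∈ LT w D k, z⁻¹ • X ∈ LT w D k := by
        rintro _ ⟨g, hg, hgE, rfl⟩
        refine ⟨f⁻¹ * g * f, D.mul_mem (D.mul_mem (D.inv_mem hfD) hg) hfD, E_conj hf.1 hgE, ?_⟩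
        rw [gr_conj hf.1 hgE μ.ne_zero hf.2, hμz]
      have hI1 : ∀ X ∈ LT w D k, z • X ∈ LT w D k := by
        rintro _ ⟨g, hg, hgE, rfl⟩
        refine ⟨f⁻¹⁻¹ * g * f⁻¹, D.mul_mem (D.mul_mem (D.inv_mem (D.inv_mem hfD)) hg) (D.inv_mem hfD),
          E_conj hf.inv.1 hgE, ?_⟩
        rw [gr_conj hf.inv.1 hgE (μ⁻¹).ne_zero hf.inv.2, Units.val_inv_eq_inv_val, inv_zpow, hμz, inv_inv]
      -- multiples
      have hmult : ∀ X ∈ LT w G k, ∃ r ∈ Subring.closure ({z, z⁻¹} : Set K), r ≠ 0 ∧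
          r • X ∈ LT w D k := by
        rintro _ ⟨u, huG, huE, rfl⟩
        obtain ⟨r, hr, hrΓ⟩ := ht l hl (v * u) (G.mul_mem hvG huG)
        rw [← hμ] at hrΓ
        obtain ⟨i, hi, hiD⟩ := hR _ hrΓ {f} (by
          intro x hx
          rw [Finset.mem_singleton.1 hx]
          exact hfD) 1
        have hiD' := hiD f (Finset.mem_singleton_self f)
        obtain ⟨κ, hκ⟩ : ∃ κ : Kˣ, κ = (μ ^ r) ^ i := ⟨_, rfl⟩
        have e1 : (v * u * tor w (μ ^ r) * (v * u)⁻¹) ^ i = v * u * tor w κ * (v * u)⁻¹ := by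
          rw [conj_pow, tor_pow, hκ]
        rw [e1] at hiD'
        have hcomm : tor w μ * (tor w κ)⁻¹ * (tor w μ)⁻¹ = (tor w κ)⁻¹ := by
          rw [tor_inv, tor_inv, tor_mul, tor_mul]
          congr 1
          rw [mul_comm μ, mul_assoc, mul_inv_cancel, mul_one]
        set a1 : (Matrix ι ι K)ˣ := (tor w μ)⁻¹ * u * tor w μ with ha1
        set a2 : (Matrix ι ι K)ˣ := (tor w κ)⁻¹ * ((tor w μ)⁻¹ * u⁻¹ * tor w μ) * tor w κ with ha2
        set a3 : (Matrix ι ι K)ˣ := (tor w κ)⁻¹ * u * tor w κ with ha3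
        have huE' := (E w k).inv_mem huE
        have h1 : a1 ∈ E w k := E_conj (tor_mem_P μ) huE
        have h2' : (tor w μ)⁻¹ * u⁻¹ * tor w μ ∈ E w k := E_conj (tor_mem_P μ) huE'
        have h2 : a2 ∈ E w k := E_conj (tor_mem_P κ) h2'
        have h3 : a3 ∈ E w k := E_conj (tor_mem_P κ) huE
        have hy : a1 * a2 * a3 * u⁻¹ ∈ E w k :=
          (E w k).mul_mem ((E w k).mul_mem ((E w k).mul_mem h1 h2) h3) huE'
        have e2 : f⁻¹ * ((v * u * tor w κ * (v * u)⁻¹)⁻¹ * f * (v * u * tor w κ * (v * u)⁻¹)) =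
            v⁻¹⁻¹ * (a1 * a2 * a3 * u⁻¹) * v⁻¹ := by
          have e3 : a1 * a2 * a3 * u⁻¹ = (tor w μ)⁻¹ * u * (tor w μ * (tor w κ)⁻¹ * (tor w μ)⁻¹) * u⁻¹ *
              tor w μ * u * tor w κ * u⁻¹ := by
            rw [ha1, ha2, ha3]
            group
          rw [e3, hcomm, hfv]
          group
        have hxD := D.mul_mem (D.inv_mem hfD) hiD'
        rw [e2] at hxD
        have hvb := (Bl.of_E hvE).inv
        have hgr : gr w k (v⁻¹⁻¹ * (a1 * a2 * a3 * u⁻¹) * v⁻¹) =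
            ((z⁻¹ - 1) * (1 - ((κ : K) ^ ((k : ℤ) + 1))⁻¹)) • gr w k u := by
          rw [gr_conj hvb.1 hy (1⁻¹ : Kˣ).ne_zero hvb.2, gr_mul ((E w k).mul_mem ((E w k).mul_mem h1 h2) h3) huE',
            gr_mul ((E w k).mul_mem h1 h2) h3, gr_mul h1 h2, ha1, ha2, ha3,
            gr_conj (tor_mem_P μ) huE μ.ne_zero (comp_tor μ),
            gr_conj (tor_mem_P κ) h2' κ.ne_zero (comp_tor κ),
            gr_conj (tor_mem_P μ) huE' μ.ne_zero (comp_tor μ),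
            gr_conj (tor_mem_P κ) huE κ.ne_zero (comp_tor κ), gr_inv huE, hμz, inv_one, Units.val_one,
            one_zpow, inv_one, one_smul]
          module
        refine ⟨(z⁻¹ - 1) * (1 - ((κ : K) ^ ((k : ℤ) + 1))⁻¹), ?_, ?_, ?_⟩
        · have hzz : z⁻¹ ∈ Subring.closure ({z, z⁻¹} : Set K) :=
            Subring.subset_closure (Set.mem_insert_of_mem _ (Set.mem_singleton _))
          refine mul_mem (sub_mem hzz (one_mem _)) (sub_mem (one_mem _) ?_)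
          have e4 : ((κ : K) ^ ((k : ℤ) + 1))⁻¹ = z⁻¹ ^ (r * i) := by
            rw [hκ, ← pow_mul, Units.val_pow_eq_pow_val, hkz, zpow_natCast, ← pow_mul, mul_comm (r * i),
              pow_mul, ← hμz, hkz, zpow_natCast, inv_pow]
          rw [e4]
          exact pow_mem hzz _
        · refine mul_ne_zero ?_ ?_
          · intro h
            have h4 : z⁻¹ = 1 := sub_eq_zero.1 h
            rw [inv_eq_one] at h4
            exact hA.inf _ (Nat.mul_pos hl (Nat.succ_pos k)) h4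
          · intro h
            have h4 : ((κ : K) ^ ((k : ℤ) + 1))⁻¹ = 1 := (sub_eq_zero.1 h).symm
            rw [inv_eq_one, hkz, zpow_natCast] at h4
            rw [hκ, ← pow_mul, Units.val_pow_eq_pow_val, ← pow_mul] at h4
            exact hμinf _ (Nat.mul_pos (Nat.mul_pos hr hi) (Nat.succ_pos k)) h4
        · exact ⟨_, hxD, E_conj hvb.1 hy, hgr⟩
      obtain ⟨Φ, hΦ, hΦJ, hΦc⟩ := fin_cosets hA (k := k) (m := l * (k + 1))
        (Nat.mul_pos hl (Nat.succ_pos k)) (Dvd.intro_left l rfl) (LT w G k) (LT w D k) (LT w Γ0 k)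
        (fun c hc X hX => LT_scale hT hX hc) hI1 hI2 hmult hN
        (by
          rintro _ ⟨g, hg, hgE, rfl⟩
          exact ⟨g, hΓG (h0Γ hg), hgE, rfl⟩)
        (by
          rintro _ ⟨g, hg, hgE, rfl⟩
          exact hΓN g hg k hgE)
      obtain ⟨Ψ, hΨ, hΨB, hΨc⟩ := cosets (B := Γ0) (C := Γ ⊓ E w k) (fun h =>
        h0 (Subgroup.relIndex_eq_zero_of_le_right inf_le_left h))
      refine ⟨Set.image2 (fun φ ψ => φ + gr w k ψ) Φ Ψ, hΦ.image2 _ hΨ, ?_, ?_⟩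
      · rintro _ ⟨φ, hφ, ψ, hψ, rfl⟩
        refine (LT w Γ k).add_mem ?_ ⟨ψ, (hΨB hψ).1, (hΨB hψ).2, rfl⟩
        obtain ⟨g, hg, hgE, hgφ⟩ := hΦJ hφ
        exact ⟨g, h0Γ hg, hgE, hgφ⟩
      · rintro _ ⟨x, hx, hxE, rfl⟩
        obtain ⟨a, ha, ψ, hψ, he⟩ := hΨc x ⟨hx, hxE⟩
        have haE : a ∈ E w k := by
          have h5 : a = x * ψ⁻¹ := by
            rw [he]
            group
          rw [h5]
          exact (E w k).mul_mem hxE ((E w k).inv_mem (hΨB hψ).2)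
        obtain ⟨φ, hφ, hφI⟩ := hΦc (gr w k a) ⟨a, ha, haE, rfl⟩
        refine ⟨_, hφI, _, ⟨φ, hφ, ψ, hψ, rfl⟩, ?_⟩
        rw [he, gr_mul haE (hΨB hψ).2]
        change _ = (gr w k a - φ) + (φ + gr w k ψ)
        rw [← add_assoc, sub_add_cancel]
  have h2 := hmain m le_rfl
  rwa [Nat.sub_self] at h2

end BoomROF
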