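import Pool.Agent.H.MP_4c7af0_al.RO.F

/-! MP_4c7af0_al, groups of rank one over global function fields (helper93), module W: parabolic subgroup, torus and
Weyl element over an arbitrary field with an element of infinite order -/

set_option linter.unusedSectionVars false

namespace BoomROF

open BoomRO

variable {ι : Type*} [Fintype ι] [DecidableEq ι] {K : Type*} [Field K] {w : ι → ℤ}

/-- an element of infinite order -/
def Inf (t : Kˣ) : Prop := ∀ m : ℕ, 0 < m → (t : K) ^ m ≠ 1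

theorem Inf.zpow {t : Kˣ} (ht : Inf t) {z : ℤ} (h : (t : K) ^ z = 1) : z = 0 := by
  have h7 : ∀ m : ℕ, (t : K) ^ m = 1 → m = 0 := by
    intro m hm
    by_contra h9
    exact ht m (Nat.pos_of_ne_zero h9) hm
  obtain ⟨m, rfl | rfl⟩ := z.eq_nat_or_neg
  · rw [zpow_natCast] at h
    rw [h7 m h]
    rfl
  · rw [zpow_neg, zpow_natCast, inv_eq_one] at h
    rw [h7 m h]
    rfl

theorem Inf.pow {t : Kˣ} (ht : Inf t) {l : ℕ} (hl : 0 < l) : Inf (t ^ l) := by
  intro m hm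
  rw [Units.val_pow_eq_pow_val, ← pow_mul]
  exact ht _ (Nat.mul_pos hl hm)

/-- the inverse of a Weyl element -/
theorem weyl_inv {t : Kˣ} (ht : Inf t) {n0 : (Matrix ι ι K)ˣ}
    (hn0 : ∀ i j, w i ≠ - w j → n0.val i j = 0) : ∀ i j, w i ≠ - w j → (n0⁻¹).val i j = 0 := by
  intro i j hij
  have ht0 : (t : K) ≠ 0 := t.ne_zero
  have h1 : dg w (t : K) * n0.val = n0.val * dg w ((t : K)⁻¹) := weyl_dg _ hn0
  have h2 : (n0⁻¹).val * dg w (t : K) = dg w ((t : K)⁻¹) * (n0⁻¹).val := by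
    calc (n0⁻¹).val * dg w (t : K) = (n0⁻¹).val * (dg w (t : K) * n0.val) * (n0⁻¹).val := by
          rw [mul_assoc, mul_assoc, Units.mul_inv, mul_one]
      _ = dg w ((t : K)⁻¹) * (n0⁻¹).val := by
          rw [h1, ← mul_assoc, Units.inv_mul, one_mul]
  have h3 := congrFun (congrFun h2 i) j
  rw [mul_dg_apply, dg_mul_apply] at h3
  by_contra hne
  have h4 : (t : K) ^ w j = ((t : K)⁻¹) ^ w i := by
    have h5 : (n0⁻¹).val i j * (t : K) ^ w j = (n0⁻¹).val i j * ((t : K)⁻¹) ^ w i := by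
      rw [h3, mul_comm]
    exact mul_left_cancel₀ hne h5
  have h5 : (t : K) ^ (w i + w j) = 1 := by
    rw [zpow_add₀ ht0, h4, inv_zpow, mul_inv_cancel₀ (zpow_ne_zero _ ht0)]
  have h7 := ht.zpow h5
  exact hij (by omega)

/-- the unipotent radical meets the opposite parabolic trivially -/
theorem opp {t : Kˣ} (ht : Inf t) {n0 u : (Matrix ι ι K)ˣ} (hn0 : ∀ i j, w i ≠ - w j → n0.val i j = 0)
    (hu : u ∈ E w 0) (h : n0⁻¹ * u * n0 ∈ P w) : u = 1 := by
  have hn0' := weyl_inv ht hn0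
  have h1 : (n0⁻¹).val * (u.val - 1) * n0.val = 0 := by
    ext i j
    rw [Matrix.zero_apply]
    by_cases hij : w i < w j
    · have h2 : (n0⁻¹).val * (u.val - 1) * n0.val = (n0⁻¹ * u * n0).val - 1 := by
        rw [Units.val_mul, Units.val_mul, mul_sub, mul_one, sub_mul, Units.inv_mul]
      rw [h2, Matrix.sub_apply, h.1 i j (by omega), Matrix.one_apply_ne, sub_zero]
      rintro rfl
      omega
    · rw [Matrix.mul_apply]
      refine Finset.sum_eq_zero fun p _ => ?_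
      by_cases hp : w p = - w j
      · rw [Matrix.mul_apply, Finset.sum_mul]
        refine Finset.sum_eq_zero fun l _ => ?_
        by_cases hl : w i = - w l
        · have h3 := hu.1 l p (by push_cast; omega)
          rw [h3, mul_zero, zero_mul]
        · rw [hn0' i l hl, zero_mul, zero_mul]
      · rw [hn0 p j hp, mul_zero]
  have h2 : u.val - 1 = 0 := by
    calc u.val - 1 = n0.val * ((n0⁻¹).val * (u.val - 1) * n0.val) * (n0⁻¹).val := by
          rw [← mul_assoc, ← mul_assoc, Units.mul_inv, one_mul, mul_assoc, Units.mul_inv, mul_one]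
      _ = 0 := by rw [h1, mul_zero, zero_mul]
  ext1
  rw [Units.val_one]
  exact sub_eq_zero.1 h2

/-- elements which fix all cusps centralise the unipotent radicals -/
theorem central_of_fix {t : Kˣ} (ht : Inf t) {G : Subgroup (Matrix ι ι K)ˣ} {n0 : (Matrix ι ι K)ˣ}
    (hn0G : n0 ∈ G) (hn0 : ∀ i j, w i ≠ - w j → n0.val i j = 0) {δ : (Matrix ι ι K)ˣ}
    (h : ∀ g ∈ G, g⁻¹ * δ * g ∈ P w) {g u : (Matrix ι ι K)ˣ} (hg : g ∈ G) (hu : u ∈ G)
    (hu' : u ∈ E w 0) : Commute δ (g * u * g⁻¹) := by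
  set d : (Matrix ι ι K)ˣ := g⁻¹ * δ * g with hd
  have hdP : d ∈ P w := h g hg
  have hfix : ∀ x ∈ G, x⁻¹ * d * x ∈ P w := by
    intro x hx
    have h1 := h (g * x) (G.mul_mem hg hx)
    have h2 : (g * x)⁻¹ * δ * (g * x) = x⁻¹ * d * x := by
      rw [hd]
      group
    rwa [h2] at h1
  have h1 : d * u * d⁻¹ * u⁻¹ = 1 := by
    refine opp ht hn0 (w := w) ?_ ?_
    · have h2 := E_conj ((P w).inv_mem hdP) hu'
      rw [inv_inv] at h2
      exact (E w 0).mul_mem h2 ((E w 0).inv_mem hu')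
    · have h2 : n0⁻¹ * (d * u * d⁻¹ * u⁻¹) * n0 =
          (n0⁻¹ * d * n0) * ((u⁻¹ * n0)⁻¹ * d * (u⁻¹ * n0))⁻¹ := by group
      rw [h2]
      exact (P w).mul_mem (hfix _ hn0G) ((P w).inv_mem (hfix _ (G.mul_mem (G.inv_mem hu) hn0G)))
  have h2 : d * u = u * d := by
    have h3 : d * u = (d * u * d⁻¹ * u⁻¹) * (u * d) := by group
    rw [h3, h1, one_mul]
  change δ * (g * u * g⁻¹) = g * u * g⁻¹ * δ
  have h3 : δ = g * d * g⁻¹ := by
    rw [hd]
    group
  have h4 : g * d * g⁻¹ * (g * u * g⁻¹) = g * (d * u) * g⁻¹ := by group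
  have h5 : g * u * g⁻¹ * (g * d * g⁻¹) = g * (u * d) * g⁻¹ := by group
  rw [h3, h4, h5, h2]

/-- elements of the parabolic subgroup whose diagonal block part is the torus element of `c` -/
def Bl (w : ι → ℤ) (f : (Matrix ι ι K)ˣ) (c : Kˣ) : Prop := f ∈ P w ∧ comp w 0 f.val = dg w (c : K)

theorem Bl.tor (c : Kˣ) : Bl w (BoomRO.tor w c) c := ⟨tor_mem_P c, comp_tor c⟩

theorem Bl.mul {f g : (Matrix ι ι K)ˣ} {a b : Kˣ} (hf : Bl w f a) (hg : Bl w g b) :
    Bl w (f * g) (a * b) := by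
  refine ⟨(P w).mul_mem hf.1 hg.1, ?_⟩
  have h1 := comp_mul hf.1.1 hg.1.1
  rw [add_zero] at h1
  rw [Units.val_mul, h1, hf.2, hg.2, dg_mul, Units.val_mul]

theorem Bl.inv {f : (Matrix ι ι K)ˣ} {a : Kˣ} (hf : Bl w f a) : Bl w f⁻¹ a⁻¹ := by
  refine ⟨(P w).inv_mem hf.1, ?_⟩
  have h1 := comp_mul hf.1.2 hf.1.1
  rw [Units.inv_mul, add_zero, comp_one, hf.2] at h1
  rw [Units.val_inv_eq_inv_val]
  calc comp w 0 (f⁻¹).val = comp w 0 (f⁻¹).val * (dg w (a : K) * dg w (a : K)⁻¹) := by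
        rw [dg_mul, mul_inv_cancel₀ a.ne_zero, dg_one, mul_one]
    _ = dg w (a : K)⁻¹ := by rw [← mul_assoc, ← h1, one_mul]

theorem Bl.one : Bl w (1 : (Matrix ι ι K)ˣ) 1 := by
  have h := Bl.tor (w := w) (1 : Kˣ)
  rwa [tor_one] at h

theorem Bl.pow {f : (Matrix ι ι K)ˣ} {a : Kˣ} (hf : Bl w f a) (n : ℕ) : Bl w (f ^ n) (a ^ n) := by
  induction n with
  | zero =>
    rw [pow_zero, pow_zero]
    exact Bl.one
  | succ n ih =>
    rw [pow_succ, pow_succ]
    exact ih.mul hf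

theorem Bl.mem_E {f : (Matrix ι ι K)ˣ} (hf : Bl w f 1) : f ∈ E w 0 := by
  have key : ∀ f : (Matrix ι ι K)ˣ, Bl w f 1 → f.val - 1 ∈ Fil w (((0 : ℕ) : ℤ) + 1) := by
    intro f hf
    have h1 : f.val - 1 ∈ Fil w 0 := fil_sub hf.1.1 fil_one
    have h2 : comp w 0 (f.val - 1) = 0 := by
      rw [sub_eq_add_neg, comp_add, comp_neg, comp_one, hf.2, Units.val_one, dg_one, add_neg_cancel]
    have h3 := fil_succ h1 h2
    simpa using h3
  refine ⟨key f hf, key _ ?_⟩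
  have h := hf.inv
  rwa [inv_one] at h

theorem Bl.of_E {f : (Matrix ι ι K)ˣ} (hf : f ∈ E w 0) : Bl w f 1 := by
  refine ⟨E_le_P 0 hf, ?_⟩
  have h1 : comp w 0 (f.val - 1) = 0 :=
    comp_eq_zero (b := 1) (by omega) (by simpa using hf.1)
  rw [sub_eq_add_neg, comp_add, comp_neg, comp_one, ← sub_eq_add_neg, sub_eq_zero] at h1
  rw [h1, Units.val_one, dg_one]

theorem Bl.conj {f a : (Matrix ι ι K)ˣ} {c : Kˣ} (hf : Bl w f c) (ha : a ∈ P w) :
    Bl w (a * f * a⁻¹) c := by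
  refine ⟨(P w).mul_mem ((P w).mul_mem ha hf.1) ((P w).inv_mem ha), ?_⟩
  have c1 := comp_mul (w := w) ha.1 hf.1.1
  have c2 := comp_mul (w := w) (fil_mul ha.1 hf.1.1) ha.2
  have c3 := comp_mul (w := w) ha.1 ha.2
  rw [Units.mul_inv] at c3
  simp only [add_zero] at c1 c2 c3
  rw [comp_one] at c3
  rw [Units.val_mul, Units.val_mul, c2, c1, hf.2, dg_comm, mul_assoc, ← c3, mul_one]

/-- leading terms of `G` are stable under `(k+1)`-st powers -/
theorem LT_scale {G : Subgroup (Matrix ι ι K)ˣ} (hT : ∀ a : Kˣ, BoomRO.tor w a ∈ G) {k : ℕ}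
    {X : Matrix ι ι K} (hX : X ∈ LT w G k) {c : K} (hc : c ≠ 0) : c ^ (k + 1) • X ∈ LT w G k := by
  have h1 := LT_tor' (hT (Units.mk0 c hc)) hX
  have h2 : ((k : ℤ) + 1) = ((k + 1 : ℕ) : ℤ) := by push_cast; ring
  rw [h2, zpow_natCast] at h1
  exact h1

/-- division by elements which stabilise the leading terms of `G` -/
theorem LT_div {G : Subgroup (Matrix ι ι K)ˣ} (hT : ∀ a : Kˣ, BoomRO.tor w a ∈ G) {k : ℕ} {β : K}
    (hβ0 : β ≠ 0) (hβ : ∀ X ∈ LT w G k, β • X ∈ LT w G k) {X : Matrix ι ι K} (hX : X ∈ LT w G k) :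
    β⁻¹ • X ∈ LT w G k := by
  have h1 : ∀ n : ℕ, β ^ n • X ∈ LT w G k := by
    intro n
    induction n with
    | zero => rwa [pow_zero, one_smul]
    | succ n ih =>
      rw [pow_succ', mul_smul]
      exact hβ _ ih
  have h2 := LT_scale hT (h1 k) (inv_ne_zero hβ0)
  rw [smul_smul] at h2
  have h3 : β⁻¹ ^ (k + 1) * β ^ k = β⁻¹ := by
    rw [pow_succ, mul_right_comm, ← mul_pow, inv_mul_cancel₀ hβ0, one_pow, one_mul]
  rwa [h3] at h2

/-- an element with diagonal block part `c` of infinite order is conjugate to the torus element of `c` -/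
theorem conj_tor {G : Subgroup (Matrix ι ι K)ˣ} (hT : ∀ a : Kˣ, BoomRO.tor w a ∈ G)
    {f : (Matrix ι ι K)ˣ} (hf : f ∈ G) {c : Kˣ} (hfc : Bl w f c) (hc : Inf c) :
    ∃ v ∈ G, v ∈ E w 0 ∧ v⁻¹ * f * v = BoomRO.tor w c := by
  obtain ⟨m, hm⟩ := exists_E_bot (w := w) (ι := ι) (K := K)
  have key : ∀ k : ℕ, ∃ v ∈ G, v ∈ E w 0 ∧ (BoomRO.tor w c)⁻¹ * (v⁻¹ * f * v) ∈ E w k := by
    intro k
    induction k with
    | zero =>
      refine ⟨1, G.one_mem, (E w 0).one_mem, ?_⟩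
      rw [inv_one, one_mul, mul_one]
      refine Bl.mem_E ?_
      have h := (Bl.tor (w := w) c).inv.mul hfc
      rwa [inv_mul_cancel] at h
    | succ k ih =>
      obtain ⟨v, hv, hvE, hn⟩ := ih
      set n : (Matrix ι ι K)ˣ := (BoomRO.tor w c)⁻¹ * (v⁻¹ * f * v) with hndef
      have hnG : n ∈ G := G.mul_mem (G.inv_mem (hT c)) (G.mul_mem (G.mul_mem (G.inv_mem hv) hf) hv)
      set ε : K := ((c : K) ^ ((k : ℤ) + 1))⁻¹ with hε
      have hk : ((k : ℤ) + 1) = ((k + 1 : ℕ) : ℤ) := by push_cast; ring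
      have hε1 : 1 - ε ≠ 0 := by
        intro h
        have h1 : ε = 1 := (sub_eq_zero.1 h).symm
        rw [hε, inv_eq_one, hk, zpow_natCast] at h1
        exact hc _ (Nat.succ_pos k) h1
      have hX : gr w k n ∈ LT w G k := ⟨n, hnG, hn, rfl⟩
      have hβ : ∀ X ∈ LT w G k, (1 - ε) • X ∈ LT w G k := by
        intro X hX
        rw [sub_smul, one_smul]
        exact (LT w G k).sub_mem hX (LT_tor (hT c) hX)
      obtain ⟨y, hyG, hyE, hy⟩ := (LT w G k).neg_mem (LT_div hT hε1 hβ hX)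
      refine ⟨v * y, G.mul_mem hv hyG, (E w 0).mul_mem hvE (E_mono (Nat.zero_le k) hyE), ?_⟩
      have e1 : (BoomRO.tor w c)⁻¹ * ((v * y)⁻¹ * f * (v * y)) =
          ((BoomRO.tor w c)⁻¹ * y⁻¹ * BoomRO.tor w c) * n * y := by
        rw [hndef]
        group
      have h2 : (BoomRO.tor w c)⁻¹ * y⁻¹ * BoomRO.tor w c ∈ E w k :=
        E_conj (tor_mem_P c) ((E w k).inv_mem hyE)
      rw [e1]
      refine gr_eq_zero ((E w k).mul_mem ((E w k).mul_mem h2 hn) hyE) ?_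
      rw [gr_mul ((E w k).mul_mem h2 hn) hyE, gr_mul h2 hn,
        gr_conj (tor_mem_P c) ((E w k).inv_mem hyE) c.ne_zero (comp_tor c), gr_inv hyE, hy, ← hε]
      have h3 : ε • - -((1 - ε)⁻¹ • gr w k n) + gr w k n + -((1 - ε)⁻¹ • gr w k n) =
          (ε * (1 - ε)⁻¹ + 1 - (1 - ε)⁻¹) • gr w k n := by
        rw [sub_smul, add_smul, one_smul, neg_neg, smul_smul]
        abel
      have h4 : ε * (1 - ε)⁻¹ + 1 - (1 - ε)⁻¹ = 0 := by
        field_simp
        ring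
      rw [h3, h4, zero_smul]
  obtain ⟨v, hv, hvE, h⟩ := key m
  refine ⟨v, hv, hvE, ?_⟩
  rw [hm, Subgroup.mem_bot] at h
  exact (inv_mul_eq_one.1 h).symm

/-- a unipotent element which commutes with a torus element of infinite order is trivial -/
theorem comm_tor {v : (Matrix ι ι K)ˣ} (hv : v ∈ E w 0) {c : Kˣ} (hc : Inf c)
    (h : (BoomRO.tor w c)⁻¹ * v * BoomRO.tor w c = v) : v = 1 := by
  obtain ⟨m, hm⟩ := exists_E_bot (w := w) (ι := ι) (K := K)
  have key : ∀ k : ℕ, v ∈ E w k := by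
    intro k
    induction k with
    | zero => exact hv
    | succ k ih =>
      refine gr_eq_zero ih ?_
      have h1 := gr_conj (tor_mem_P c) ih c.ne_zero (comp_tor c)
      rw [h] at h1
      set ε : K := ((c : K) ^ ((k : ℤ) + 1))⁻¹ with hε
      have hk : ((k : ℤ) + 1) = ((k + 1 : ℕ) : ℤ) := by push_cast; ring
      have hε1 : 1 - ε ≠ 0 := by
        intro h
        have h1 : ε = 1 := (sub_eq_zero.1 h).symm
        rw [hε, inv_eq_one, hk, zpow_natCast] at h1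
        exact hc _ (Nat.succ_pos k) h1
      have h2 : (1 - ε) • gr w k v = 0 := by
        rw [sub_smul, one_smul, ← h1, sub_self]
      exact (smul_eq_zero.1 h2).resolve_left hε1
  have h2 := key m
  rwa [hm, Subgroup.mem_bot] at h2

end BoomROF
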